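import Mathlib
import Pool.Agent.H.MP_59b15d_al.h60g.Bl

set_option autoImplicit false

namespace Pool.MP_59b15d_al.H73G

open Pool.MP_59b15d_al.H24T Pool.MP_59b15d_al.H76R Pool.MP_59b15d_al.H73E
open Pool.MP_59b15d_al.H60G
open FreeGroup (of)

section

variable {n : ℕ} {G : Type*} [Group G] {a b : Fin (n + 1) → G}

theorem conj_shift_aux (h : IsSurf a b) {β f f' : MulAut G}
    (hβ0 : β (ex a 0) = DD a b n * ex a n * (DD a b n)⁻¹ ∧
      β (ex b 0) = DD a b n * ex b n * (DD a b n)⁻¹)
    (hf0 : f (ex a 0) = ex a 0 ∧ f (ex b 0) = ex b 0) (hf' : f' ∈ MR h 0 n)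
    (hs : ∀ k, k < n → β (f (ex a (1 + k))) = f' (β (ex a (1 + k))) ∧
      β (f (ex b (1 + k))) = f' (β (ex b (1 + k)))) : β * f * β⁻¹ = f' := by
  rw [mul_inv_eq_iff_eq_mul]
  apply ext_ex h
  intro k hk
  rw [MulAut.mul_apply, MulAut.mul_apply, MulAut.mul_apply, MulAut.mul_apply]
  rcases Nat.eq_zero_or_pos k with rfl | hk0
  · have h1 := MR_fix h hf' n (Or.inr le_rfl)
    have h2 := MR_DD h hf' (k := n) (Or.inl le_rfl)
    rw [hf0.1, hf0.2, hβ0.1, hβ0.2]
    simp only [map_mul, map_inv, h1.1, h1.2, h2, and_self]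
  · obtain ⟨l, rfl⟩ : ∃ l, k = 1 + l := ⟨k - 1, by omega⟩
    exact hs l (by omega)

/-- The shift of the last handles to the first ones. -/
theorem exists_rot (h : IsSurf a b) :
    ∃ β ∈ MR h 0 (n + 1), ∀ f ∈ MR h 1 (n + 1), β * f * β⁻¹ ∈ MR h 0 n := by
  obtain ⟨β, h1, h2, h3⟩ := exists_beta h 1 n (by omega)
  have e1 : 1 + n = n + 1 := by omega
  rw [e1] at h1
  have h20 := h2 0 one_pos
  rw [add_zero] at h20
  refine ⟨β, h1, ?_⟩
  intro f hf
  have key : MR h 1 (n + 1) ≤ (MR h 0 n).comap (MulAut.conj β).toMonoidHom := by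
    apply MR_le h
    · intro i hi1 hi2
      obtain ⟨l, hl⟩ : ∃ l, (i : ℕ) = 1 + l := ⟨i - 1, by omega⟩
      have hln : l < n := by omega
      have hli : l < n + 1 := by omega
      have hi : i = ⟨1 + l, by omega⟩ := Fin.ext hl
      have e : β * TA h i * β⁻¹ = TA h ⟨l, hli⟩ := by
        refine conj_shift_aux h h20 (MR_fix h (TA_mem h (lo := 1) (hi := n + 1) i hi1 hi2) 0
          (Or.inl one_pos)) (TA_mem h _ (Nat.zero_le _) hln) ?_
        intro k hk
        rw [(h3 k hk).1, (h3 k hk).2, ex_lt a (by omega : 1 + k < n + 1),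
          ex_lt b (by omega : 1 + k < n + 1), ex_lt a (by omega : k < n + 1),
          ex_lt b (by omega : k < n + 1)]
        have h4 := h3 k hk
        rw [ex_lt a (by omega : 1 + k < n + 1),
          ex_lt b (by omega : 1 + k < n + 1), ex_lt a (by omega : k < n + 1),
          ex_lt b (by omega : k < n + 1)] at h4
        rw [TA_a, TA_a, h4.1]
        refine ⟨rfl, ?_⟩
        by_cases hkl : k = l
        · have ei : (⟨1 + k, by omega⟩ : Fin (n + 1)) = i := Fin.ext (by simp only; omega)
          have ek : (⟨k, by omega⟩ : Fin (n + 1)) = ⟨l, hli⟩ := Fin.ext hkl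
          rw [ei, ek] at h4
          rw [ei, ek, TA_b, TA_b, map_mul, h4.1, h4.2]
        · have n1 : (⟨1 + k, by omega⟩ : Fin (n + 1)) ≠ i := by
            intro hh
            have := congrArg Fin.val hh
            simp only at this
            omega
          have n2 : (⟨k, by omega⟩ : Fin (n + 1)) ≠ ⟨l, hli⟩ := by
            intro hh
            have := congrArg Fin.val hh
            simp only at this
            omega
          rw [TA_b_ne h n1, TA_b_ne h n2, h4.2]
      change β * TA h i * β⁻¹ ∈ MR h 0 n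
      rw [e]
      exact TA_mem h _ (Nat.zero_le _) hln
    · intro i hi1 hi2
      obtain ⟨l, hl⟩ : ∃ l, (i : ℕ) = 1 + l := ⟨i - 1, by omega⟩
      have hln : l < n := by omega
      have hli : l < n + 1 := by omega
      have hi : i = ⟨1 + l, by omega⟩ := Fin.ext hl
      have e : β * TB h i * β⁻¹ = TB h ⟨l, hli⟩ := by
        refine conj_shift_aux h h20 (MR_fix h (TB_mem h (lo := 1) (hi := n + 1) i hi1 hi2) 0
          (Or.inl one_pos)) (TB_mem h _ (Nat.zero_le _) hln) ?_
        intro k hk
        rw [(h3 k hk).1, (h3 k hk).2, ex_lt a (by omega : 1 + k < n + 1),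
          ex_lt b (by omega : 1 + k < n + 1), ex_lt a (by omega : k < n + 1),
          ex_lt b (by omega : k < n + 1)]
        have h4 := h3 k hk
        rw [ex_lt a (by omega : 1 + k < n + 1),
          ex_lt b (by omega : 1 + k < n + 1), ex_lt a (by omega : k < n + 1),
          ex_lt b (by omega : k < n + 1)] at h4
        rw [TB_b, TB_b, h4.2]
        refine ⟨?_, rfl⟩
        by_cases hkl : k = l
        · have ei : (⟨1 + k, by omega⟩ : Fin (n + 1)) = i := Fin.ext (by simp only; omega)
          have ek : (⟨k, by omega⟩ : Fin (n + 1)) = ⟨l, hli⟩ := Fin.ext hkl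
          rw [ei, ek] at h4
          rw [ei, ek, TB_a, TB_a, map_mul, h4.1, h4.2]
        · have n1 : (⟨1 + k, by omega⟩ : Fin (n + 1)) ≠ i := by
            intro hh
            have := congrArg Fin.val hh
            simp only at this
            omega
          have n2 : (⟨k, by omega⟩ : Fin (n + 1)) ≠ ⟨l, hli⟩ := by
            intro hh
            have := congrArg Fin.val hh
            simp only at this
            omega
          rw [TB_a_ne h n1, TB_a_ne h n2, h4.1]
      change β * TB h i * β⁻¹ ∈ MR h 0 n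
      rw [e]
      exact TB_mem h _ (Nat.zero_le _) hln
    · intro i j hij hi1 hj2
      obtain ⟨l, hl⟩ : ∃ l, (i : ℕ) = 1 + l := ⟨i - 1, by omega⟩
      have hln : l + 1 < n := by omega
      have hli : l < n + 1 := by omega
      have hlj : l + 1 < n + 1 := by omega
      have hi : i = ⟨1 + l, by omega⟩ := Fin.ext hl
      have hj : j = ⟨1 + (l + 1), by omega⟩ := Fin.ext (by simp only; omega)
      have e : β * TC h i j hij * β⁻¹ = TC h ⟨l, hli⟩ ⟨l + 1, hlj⟩ rfl := by
        refine conj_shift_aux h h20 (MR_fix h (TC_mem h (lo := 1) (hi := n + 1) i j hij hi1 hj2) 0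
          (Or.inl one_pos)) (TC_mem h _ _ _ (Nat.zero_le _) hln) ?_
        have hi4 := h3 l (by omega)
        have hj4 := h3 (l + 1) (by omega)
        rw [ex_lt a (by omega : 1 + l < n + 1),
          ex_lt b (by omega : 1 + l < n + 1), ex_lt a (by omega : l < n + 1),
          ex_lt b (by omega : l < n + 1)] at hi4
        rw [ex_lt a (by omega : 1 + (l + 1) < n + 1),
          ex_lt b (by omega : 1 + (l + 1) < n + 1), ex_lt a (by omega : l + 1 < n + 1),
          ex_lt b (by omega : l + 1 < n + 1)] at hj4
        have ei0 : (⟨1 + l, by omega⟩ : Fin (n + 1)) = i := Fin.ext (by simp only; omega)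
        have ej0 : (⟨1 + (l + 1), by omega⟩ : Fin (n + 1)) = j := Fin.ext (by simp only; omega)
        rw [ei0] at hi4
        rw [ej0] at hj4
        intro k hk
        rw [(h3 k hk).1, (h3 k hk).2, ex_lt a (by omega : 1 + k < n + 1),
          ex_lt b (by omega : 1 + k < n + 1), ex_lt a (by omega : k < n + 1),
          ex_lt b (by omega : k < n + 1)]
        have h4 := h3 k hk
        rw [ex_lt a (by omega : 1 + k < n + 1),
          ex_lt b (by omega : 1 + k < n + 1), ex_lt a (by omega : k < n + 1),
          ex_lt b (by omega : k < n + 1)] at h4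
        by_cases hkl : k = l
        · have ei : (⟨1 + k, by omega⟩ : Fin (n + 1)) = i := Fin.ext (by simp only; omega)
          have ek : (⟨k, by omega⟩ : Fin (n + 1)) = ⟨l, hli⟩ := Fin.ext hkl
          rw [ei, ek, TC_ai, TC_ai, TC_bi, TC_bi]
          simp only [map_mul, map_inv, hi4.1, hi4.2, hj4.1, hj4.2, and_self]
        · by_cases hkl2 : k = l + 1
          · have ei : (⟨1 + k, by omega⟩ : Fin (n + 1)) = j := Fin.ext (by simp only; omega)
            have ek : (⟨k, by omega⟩ : Fin (n + 1)) = ⟨l + 1, hlj⟩ := Fin.ext hkl2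
            rw [ei, ek, TC_aj, TC_aj, TC_bj, TC_bj]
            simp only [map_mul, map_inv, hi4.1, hi4.2, hj4.1, hj4.2, and_self]
          · have n1 : (⟨1 + k, by omega⟩ : Fin (n + 1)) ≠ i := by
              intro hh
              have := congrArg Fin.val hh
              simp only at this
              omega
            have n2 : (⟨1 + k, by omega⟩ : Fin (n + 1)) ≠ j := by
              intro hh
              have := congrArg Fin.val hh
              simp only at this
              omega
            have n3 : (⟨k, by omega⟩ : Fin (n + 1)) ≠ ⟨l, hli⟩ := by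
              intro hh
              have := congrArg Fin.val hh
              simp only at this
              omega
            have n4 : (⟨k, by omega⟩ : Fin (n + 1)) ≠ ⟨l + 1, hlj⟩ := by
              intro hh
              have := congrArg Fin.val hh
              simp only at this
              omega
            rw [TC_a_ne h hij n1 n2, TC_b_ne h hij n1 n2, TC_a_ne h _ n3 n4, TC_b_ne h _ n3 n4,
              h4.1, h4.2]
            exact ⟨rfl, rfl⟩
      change β * TC h i j hij * β⁻¹ ∈ MR h 0 n
      rw [e]
      exact TC_mem h _ _ _ (Nat.zero_le _) hln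
  exact key hf

end

end Pool.MP_59b15d_al.H73G
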