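import Mathlib
import Pool.Agent.H.MP_59b15d_al.h73e.Lb
import Pool.Agent.H.MP_59b15d_al.h11c.Hone
import Pool.Agent.H.MP_59b15d_al.h73e.Ba

set_option autoImplicit false

namespace Pool.MP_59b15d_al.H73G

open Pool.MP_59b15d_al.H24T Pool.MP_59b15d_al.H76R Pool.MP_59b15d_al.H73E
open Pool.Agent.H.MP_59b15d_al.SP
open FreeGroup (of)

section

variable {n : ℕ} {G : Type*} [Group G] {a b : Fin (n + 1) → G}

/-- The action of a push with class `u`. -/
def Ef (u : V (n + 1)) (k : ℤ) : V (n + 1) →ₗ[ℤ] V (n + 1) where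
  toFun v := v + om (e (Fin.last n)) v • u + (om u v + k * om (e (Fin.last n)) v) • e (Fin.last n)
  map_add' v w := by
    simp only [om_add_right]
    module
  map_smul' c v := by
    simp only [om_smul_right, RingHom.id_apply]
    module

theorem Ef_apply (u : V (n + 1)) (k : ℤ) (v : V (n + 1)) : Ef u k v =
    v + om (e (Fin.last n)) v • u +
      (om u v + k * om (e (Fin.last n)) v) • e (Fin.last n) := rfl

theorem Ef_zero (v : V (n + 1)) : Ef 0 0 v = v := by
  rw [Ef_apply, om_zero_left]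
  module

theorem Ef_comp {u u' : V (n + 1)} (hu : om (e (Fin.last n)) u = 0)
    (hu' : om (e (Fin.last n)) u' = 0) (k k' : ℤ) (v : V (n + 1)) :
    Ef u k (Ef u' k' v) = Ef (u + u') (k + k' + om u u') v := by
  have h1 : om u (e (Fin.last n)) = 0 := by rw [om_swap, hu]; rfl
  have h2 : om (e (Fin.last n)) (e (Fin.last n)) = 0 := om_self _
  simp only [Ef_apply, om_add_left, om_add_right, om_smul_right, hu', h1, h2, mul_zero, add_zero]
  module

theorem lin_eq {A : V (n + 1) ≃ₗ[ℤ] V (n + 1)} {F : V (n + 1) →ₗ[ℤ] V (n + 1)}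
    (h1 : ∀ i, A (e i) = F (e i)) (h2 : ∀ i, A (f i) = F (f i)) (v : V (n + 1)) :
    A v = F v := by
  rw [expand v, map_sum, map_sum]
  refine Finset.sum_congr rfl fun i _ => ?_
  rw [map_add, map_add, map_smul, map_smul, map_smul, map_smul, h1, h2]

variable (h : IsSurf a b)

/-- The class of a loop of the first handles. -/
noncomputable def cy (y : Fr n) : V (n + 1) := cls h (jR a b y)

theorem cy_a (k : Fin n) : cy h (of (Sum.inl k)) = e k.castSucc := by
  rw [cy, jR_a, cls_a]

theorem cy_b (k : Fin n) : cy h (of (Sum.inr k)) = f k.castSucc := by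
  rw [cy, jR_b, cls_b]

theorem cy_one : cy h (1 : Fr n) = 0 := by rw [cy, map_one, cls_one]

theorem cy_mul (x y : Fr n) : cy h (x * y) = cy h x + cy h y := by
  rw [cy, map_mul, cls_mul]; rfl

theorem cy_inv (x : Fr n) : cy h x⁻¹ = -cy h x := by
  rw [cy, map_inv, cls_inv]; rfl

theorem om_last_cy (y : Fr n) : om (e (Fin.last n)) (cy h y) = 0 := by
  induction y using fr_induction with
  | h1 => rw [cy_one, om_zero_right]
  | ha k => rw [cy_a, om_e_e]
  | hb k => rw [cy_b, om_e_f_ne (last_ne_cs k)]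
  | hm x y hx hy => rw [cy_mul, om_add_right, hx, hy, add_zero]
  | hi x hx => rw [cy_inv, om_neg_right, hx, neg_zero]

theorem H1_Xa (j : Fin n) (v : V (n + 1)) : H1 h (Xa h j) v = Ef (e j.castSucc) 1 v := by
  have hl : (Fin.last n) ≠ j.castSucc := last_ne_cs j
  refine lin_eq ?_ ?_ v
  · intro k
    rw [H1_e, Ef_apply, om_e_e, om_e_e]
    rcases seg_cases j k with hk | hk | ⟨hk, hk2⟩ | hk
    · rw [Xa_a_lt h j hk, cls_a]
      module
    · subst hk
      rw [Xa_aj]
      simp only [cls_mul, cls_inv, cls_a, cls_b]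
      module
    · rw [Xa_a_mid h j hk hk2]
      simp only [cls_mul, cls_inv, cls_a, cls_b]
      module
    · subst hk
      rw [Xa_al]
      simp only [cls_mul, cls_inv, cls_a, cls_b]
      module
  · intro k
    rw [H1_f, Ef_apply]
    rcases seg_cases j k with hk | hk | ⟨hk, hk2⟩ | hk
    · rw [Xa_b_lt h j hk, cls_b, om_e_f_ne (hk.trans (Fin.castSucc_lt_last j)).ne',
        om_e_f_ne hk.ne']
      module
    · subst hk
      rw [Xa_bj, om_e_f_ne hl, om_e_f]
      simp only [cls_mul, cls_inv, cls_a, cls_b]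
      module
    · rw [Xa_b_mid h j hk hk2, om_e_f_ne hk2.ne', om_e_f_ne hk.ne]
      simp only [cls_mul, cls_inv, cls_a, cls_b]
      module
    · subst hk
      rw [Xa_bl, om_e_f, om_e_f_ne hl.symm]
      simp only [cls_mul, cls_inv, cls_a, cls_b]
      module

theorem H1_Xb (j : Fin n) (v : V (n + 1)) : H1 h (Xb h j) v = Ef (f j.castSucc) (-1) v := by
  have hl : (Fin.last n) ≠ j.castSucc := last_ne_cs j
  refine lin_eq ?_ ?_ v
  · intro k
    rw [H1_e, Ef_apply, om_e_e]
    rcases seg_cases j k with hk | hk | ⟨hk, hk2⟩ | hk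
    · rw [Xb_a_lt h j hk, cls_a, om_f_e_ne hk.ne']
      module
    · subst hk
      rw [Xb_aj, om_f_e]
      simp only [cls_mul, cls_inv, cls_a, cls_b]
      module
    · rw [Xb_a_mid h j hk hk2, om_f_e_ne hk.ne]
      simp only [cls_mul, cls_inv, cls_a, cls_b]
      module
    · subst hk
      rw [Xb_al, om_f_e_ne hl.symm]
      simp only [cls_mul, cls_inv, cls_a, cls_b]
      module
  · intro k
    rw [H1_f, Ef_apply, om_f_f]
    rcases seg_cases j k with hk | hk | ⟨hk, hk2⟩ | hk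
    · rw [Xb_b_lt h j hk, cls_b, om_e_f_ne (hk.trans (Fin.castSucc_lt_last j)).ne']
      module
    · subst hk
      rw [Xb_bj, om_e_f_ne hl]
      simp only [cls_mul, cls_inv, cls_a, cls_b]
      module
    · rw [Xb_b_mid h j hk hk2, om_e_f_ne hk2.ne']
      simp only [cls_mul, cls_inv, cls_a, cls_b]
      module
    · subst hk
      rw [Xb_bl, om_e_f]
      simp only [cls_mul, cls_inv, cls_a, cls_b]
      module

theorem H1_inv_eq {φ : MulAut G} {v w : V (n + 1)} (hw : H1 h φ w = v) :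
    H1 h φ⁻¹ v = w := by
  rw [← hw]
  have h1 : H1 h φ⁻¹ * H1 h φ = 1 := by rw [← map_mul, inv_mul_cancel, map_one]
  exact DFunLike.congr_fun h1 w

/-- The action of the pushes. -/
theorem H1_XX (y : Fr n) : ∃ k : ℤ, ∀ v, H1 h (XX h y) v = Ef (cy h y) k v := by
  induction y using fr_induction with
  | h1 => exact ⟨0, fun v => by rw [map_one, map_one, cy_one, Ef_zero]; rfl⟩
  | ha k => exact ⟨1, fun v => by rw [XX_a, H1_Xa, cy_a]⟩
  | hb k => exact ⟨-1, fun v => by rw [XX_b, H1_Xb, cy_b]⟩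
  | hm x y hx hy =>
    obtain ⟨k, hk⟩ := hx
    obtain ⟨l, hl⟩ := hy
    refine ⟨k + l + om (cy h x) (cy h y), fun v => ?_⟩
    rw [map_mul, map_mul, cy_mul, ← Ef_comp (om_last_cy h x) (om_last_cy h y), ← hl, ← hk]
    rfl
  | hi x hx =>
    obtain ⟨k, hk⟩ := hx
    refine ⟨-k, fun v => ?_⟩
    rw [map_inv]
    apply H1_inv_eq h
    rw [hk, Ef_comp (om_last_cy h x) (om_last_cy h x⁻¹), cy_inv, om_neg_right, om_self,
      add_neg_cancel, add_neg_cancel, neg_zero, add_zero, Ef_zero]

theorem H1_TT (v : V (n + 1)) : H1 h (TT h) v = Ef 0 1 v := by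
  refine lin_eq ?_ ?_ v
  · intro k
    rw [H1_e, Ef_apply, om_e_e, om_zero_left, TT, TA_a, cls_a]
    module
  · intro k
    rw [H1_f, Ef_apply, om_zero_left, TT]
    by_cases hk : k = Fin.last n
    · subst hk
      rw [TA_b, om_e_f, cls_mul, cls_a, cls_b]
      module
    · rw [TA_b_ne h hk, om_e_f_ne (Ne.symm hk), cls_b]
      module

theorem H1_TTz (k : ℤ) (v : V (n + 1)) : H1 h (TT h ^ k) v = Ef 0 k v := by
  have h0 : om (e (Fin.last n)) (0 : V (n + 1)) = 0 := om_zero_right _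
  induction k using Int.induction_on generalizing v with
  | zero => rw [zpow_zero, map_one, Ef_zero]; rfl
  | succ k ih =>
    rw [zpow_add_one, map_mul]
    change H1 h (TT h ^ (k : ℤ)) (H1 h (TT h) v) = _
    rw [H1_TT, ih, Ef_comp h0 h0, om_zero_right, add_zero, add_zero]
  | pred k ih =>
    rw [zpow_sub_one, map_mul]
    change H1 h (TT h ^ (-(k : ℤ))) (H1 h (TT h)⁻¹ v) = _
    have h1 : H1 h (TT h)⁻¹ v = Ef 0 (-1) v := by
      apply H1_inv_eq h
      rw [H1_TT, Ef_comp h0 h0, om_zero_right, add_zero, add_zero, add_neg_cancel, Ef_zero]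
    rw [h1, ih, Ef_comp h0 h0, om_zero_right, add_zero, add_zero, sub_eq_add_neg]

/-- A push of class zero, corrected by a twist, acts trivially. -/
theorem exists_H1_one (y : Fr n) (hy : cy h y = 0) : ∃ k : ℤ, H1 h (XX h y * TT h ^ k) = 1 := by
  obtain ⟨k, hk⟩ := H1_XX h y
  refine ⟨-k, LinearEquiv.ext fun v => ?_⟩
  rw [map_mul]
  change H1 h (XX h y) (H1 h (TT h ^ (-k)) v) = v
  rw [H1_TTz, hk, hy, Ef_comp (om_zero_right _) (om_zero_right _), om_zero_right, add_zero,
    add_zero, add_neg_cancel, Ef_zero]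

end

end Pool.MP_59b15d_al.H73G
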