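import Mathlib
import Pool.Agent.H.MP_59b15d_al.h73g.Hx
import Pool.Agent.H.MP_59b15d_al.h73g.Sh
import Pool.Agent.H.MP_59b15d_al.h60g.Ce
import Pool.Agent.H.MP_59b15d_al.h73e.Xb
import Pool.Agent.H.MP_59b15d_al.h60g.Sh

set_option autoImplicit false

namespace Pool.MP_59b15d_al.H73G

open Pool.MP_59b15d_al.H24T Pool.MP_59b15d_al.H76R Pool.MP_59b15d_al.H73E
open Pool.MP_59b15d_al.H60G
open Pool.Agent.H.MP_59b15d_al.SP
open FreeGroup (of)

section

variable {n : ℕ} {G : Type*} [Group G] {a b : Fin (n + 1) → G} (h : IsSurf a b)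

/-- The group generated by all twists but the one about the last `b`. -/
def Mc : Subgroup (MulAut G) :=
  Subgroup.closure {T | (∃ i, T = TA h i) ∨ (∃ i : Fin n, T = TB h i.castSucc) ∨
    ∃ i j hij, T = TC h i j hij}

/-- Compositions of a push, a twist and an automorphism of the first handles. -/
def Dec2 (φ : MulAut G) : Prop :=
  ∃ (y : Fr n) (k : ℤ) (f' : MulAut (Fr n)) (f : MulAut G), Pair h f' f ∧ f ∈ MR h 0 n ∧
    φ = XX h y * TT h ^ k * f

theorem Dec2_XX {φ : MulAut G} (hφ : Dec2 h φ) (x : Fr n) : Dec2 h (XX h x * φ) := by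
  obtain ⟨y, k, f', f, hf, hm, rfl⟩ := hφ
  exact ⟨x * y, k, f', f, hf, hm, by rw [map_mul]; group⟩

theorem Dec2_TT {φ : MulAut G} (hφ : Dec2 h φ) (l : ℤ) : Dec2 h (TT h ^ l * φ) := by
  obtain ⟨y, k, f', f, hf, hm, rfl⟩ := hφ
  refine ⟨y, l + k, f', f, hf, hm, ?_⟩
  have h2 := ((TT_XX h y).zpow_left l).eq
  calc TT h ^ l * (XX h y * TT h ^ k * f) = (TT h ^ l * XX h y) * TT h ^ k * f := by group
    _ = _ := by rw [h2, zpow_add]; group

theorem Dec2_pair {φ : MulAut G} (hφ : Dec2 h φ) {t' : MulAut (Fr n)} {t : MulAut G}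
    (ht : Pair h t' t) (htm : t ∈ MR h 0 n) : Dec2 h (t * φ) := by
  obtain ⟨y, k, f', f, hf, hm, rfl⟩ := hφ
  obtain ⟨l, hl⟩ := ht.fX y
  refine ⟨t' y, l + k, t' * f', t * f, ht.mul hf, Subgroup.mul_mem _ htm hm, ?_⟩
  have h2 := ((comm_TT h ht.fj ht.fa ht.fb).zpow_right k).eq
  calc t * (XX h y * TT h ^ k * f) = (t * XX h y * t⁻¹) * (t * TT h ^ k) * f := by group
    _ = _ := by rw [hl, h2, zpow_add]; group

theorem Mc_form (φ : MulAut G) (hφ : φ ∈ Mc h) : Dec2 h φ := by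
  have hlast : ∀ (j : Fin n) (hj : ((Fin.last n : Fin (n + 1)) : ℕ) = j.castSucc + 1),
      TC h j.castSucc (Fin.last n) hj = XX h (of (Sum.inr j)) * TB h j.castSucc := by
    intro j hj
    rw [XX_b, X0_eq h j hj]
  have hidx : ∀ i j : Fin (n + 1), (j : ℕ) = i + 1 → ∃ i' : Fin n, i = i'.castSucc := by
    intro i j hij
    have hi : (i : ℕ) < n := by
      have := j.2
      omega
    exact ⟨⟨i, hi⟩, rfl⟩
  have mA : ∀ i : Fin n, TA h i.castSucc ∈ MR h 0 n :=
    fun i => TA_mem h _ (Nat.zero_le _) i.2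
  have mB : ∀ i : Fin n, TB h i.castSucc ∈ MR h 0 n :=
    fun i => TB_mem h _ (Nat.zero_le _) i.2
  have mC : ∀ (i j : Fin n) (hij : (j : ℕ) = i + 1), TCc h hij ∈ MR h 0 n :=
    fun i j hij => TC_mem h _ _ _ (Nat.zero_le _) j.2
  refine Subgroup.closure_induction_left (p := fun φ _ => Dec2 h φ) ?_ ?_ ?_ hφ
  · exact ⟨1, 0, 1, 1, Pair.one h, Subgroup.one_mem _, by simp⟩
  · rintro T (⟨i, rfl⟩ | ⟨i, rfl⟩ | ⟨i, j, hij, rfl⟩) φ _ ih
    · rcases Fin.eq_castSucc_or_eq_last i with ⟨i', rfl⟩ | rfl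
      · exact Dec2_pair h ih (pair_TA h i') (mA i')
      · have := Dec2_TT h ih 1
        rwa [zpow_one] at this
    · exact Dec2_pair h ih (pair_TB h i) (mB i)
    · obtain ⟨i', rfl⟩ := hidx i j hij
      rcases Fin.eq_castSucc_or_eq_last j with ⟨j', rfl⟩ | rfl
      · exact Dec2_pair h ih (pair_TC h (i := i') (j := j') hij) (mC i' j' hij)
      · rw [hlast i' hij, mul_assoc]
        exact Dec2_XX h (Dec2_pair h ih (pair_TB h i') (mB i')) _
  · rintro T (⟨i, rfl⟩ | ⟨i, rfl⟩ | ⟨i, j, hij, rfl⟩) φ _ ih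
    · rcases Fin.eq_castSucc_or_eq_last i with ⟨i', rfl⟩ | rfl
      · exact Dec2_pair h ih (pair_TA h i').inv (Subgroup.inv_mem _ (mA i'))
      · have := Dec2_TT h ih (-1)
        rwa [zpow_neg_one] at this
    · exact Dec2_pair h ih (pair_TB h i).inv (Subgroup.inv_mem _ (mB i))
    · obtain ⟨i', rfl⟩ := hidx i j hij
      rcases Fin.eq_castSucc_or_eq_last j with ⟨j', rfl⟩ | rfl
      · exact Dec2_pair h ih (pair_TC h (i := i') (j := j') hij).inv
          (Subgroup.inv_mem _ (mC i' j' hij))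
      · rw [hlast i' hij, mul_inv_rev, mul_assoc, ← map_inv]
        exact Dec2_pair h (Dec2_XX h ih _) (pair_TB h i').inv (Subgroup.inv_mem _ (mB i'))

/-- The pushes that lie in `K` up to powers of the twist. -/
def SK (K : Subgroup (MulAut G)) : Subgroup (Fr n) where
  carrier := {y | ∃ k : ℤ, XX h y * TT h ^ k ∈ K}
  one_mem' := ⟨0, by simp⟩
  mul_mem' := by
    rintro x y ⟨k, hk⟩ ⟨l, hl⟩
    refine ⟨k + l, ?_⟩
    have h2 := ((TT_XX h y).zpow_left k).eq
    have h3 : XX h (x * y) * TT h ^ (k + l) = (XX h x * TT h ^ k) * (XX h y * TT h ^ l) := by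
      rw [map_mul, zpow_add]
      calc XX h x * XX h y * (TT h ^ k * TT h ^ l) = XX h x * (XX h y * TT h ^ k) * TT h ^ l := by
            group
        _ = _ := by rw [← h2]; group
    rw [h3]
    exact K.mul_mem hk hl
  inv_mem' := by
    rintro x ⟨k, hk⟩
    refine ⟨-k, ?_⟩
    have h2 := ((TT_XX h x⁻¹).zpow_left (-k)).eq
    have h3 : XX h x⁻¹ * TT h ^ (-k) = (XX h x * TT h ^ k)⁻¹ := by
      rw [← h2, map_inv, mul_inv_rev, zpow_neg]
    rw [h3]
    exact K.inv_mem hk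

theorem mem_SK {K : Subgroup (MulAut G)} {y : Fr n} :
    y ∈ SK h K ↔ ∃ k : ℤ, XX h y * TT h ^ k ∈ K := Iff.rfl

theorem SK_normal {K : Subgroup (MulAut G)} (hK : ∀ ψ ∈ MMs h, ∀ x ∈ K, ψ * x * ψ⁻¹ ∈ K) :
    (SK h K).Normal := by
  refine ⟨fun y hy z => ?_⟩
  obtain ⟨k, hk⟩ := hy
  refine ⟨k, ?_⟩
  have h1 := hK _ (XX_mem h z) _ hk
  have h2 := ((TT_XX h z⁻¹).zpow_left k).eq
  have h3 : XX h (z * y * z⁻¹) * TT h ^ k = XX h z * (XX h y * TT h ^ k) * (XX h z)⁻¹ := by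
    rw [map_mul, map_mul, map_inv]
    rw [map_inv] at h2
    calc XX h z * XX h y * (XX h z)⁻¹ * TT h ^ k = XX h z * XX h y * ((XX h z)⁻¹ * TT h ^ k) := by
          group
      _ = _ := by rw [← h2]; group
  rw [h3]
  exact h1

theorem SK_pair {K : Subgroup (MulAut G)} (hK : ∀ ψ ∈ MMs h, ∀ x ∈ K, ψ * x * ψ⁻¹ ∈ K)
    {f' : MulAut (Fr n)} {f : MulAut G} (hp : Pair h f' f) (hf : f ∈ MMs h) {y : Fr n}
    (hy : y ∈ SK h K) : f' y ∈ SK h K := by
  obtain ⟨k, hk⟩ := hy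
  obtain ⟨l, hl⟩ := hp.fX y
  refine ⟨l + k, ?_⟩
  have h1 := hK _ hf _ hk
  have h2 := ((comm_TT h hp.fj hp.fa hp.fb).zpow_right k).eq
  have h3 : f * (XX h y * TT h ^ k) * f⁻¹ = XX h (f' y) * TT h ^ (l + k) := by
    calc f * (XX h y * TT h ^ k) * f⁻¹ = (f * XX h y * f⁻¹) * ((f * TT h ^ k) * f⁻¹) := by group
      _ = _ := by rw [hl, h2, zpow_add]; group
  rwa [h3] at h1

/-- The pushes round the handles `1, ...`. -/
theorem XX_MR1 (i : Fin n) (hi : 1 ≤ (i : ℕ)) : XX h (of (Sum.inr i)) ∈ MR h 1 (n + 1) ∧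
    XX h (of (Sum.inl i)) ∈ MR h 1 (n + 1) := by
  have hTT0 : TT h ∈ MR h 1 (n + 1) := by
    refine TA_mem h _ ?_ (Nat.lt_succ_self n)
    have := i.2
    change 1 ≤ n
    omega
  have hTT : ∀ k : ℤ, TT h ^ k ∈ MR h 1 (n + 1) := fun k => Subgroup.zpow_mem _ hTT0 _
  let S : Subgroup (Fr n) := (MR h 1 (n + 1)).comap (XX h)
  have hS : ∀ {f' : MulAut (Fr n)} {f : MulAut G}, Pair h f' f → f ∈ MR h 1 (n + 1) → ∀ y ∈ S,
      f' y ∈ S := by
    intro f' f hp hf y hy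
    obtain ⟨k, hk⟩ := hp.fX y
    have h1 : f * XX h y * f⁻¹ ∈ MR h 1 (n + 1) :=
      Subgroup.mul_mem _ (Subgroup.mul_mem _ hf hy) (Subgroup.inv_mem _ hf)
    rw [hk] at h1
    exact (Subgroup.mul_mem_cancel_right _ (hTT k)).mp h1
  have hA : ∀ j : Fin n, 1 ≤ (j : ℕ) → of (Sum.inr j) ∈ S → of (Sum.inl j) ∈ S := by
    intro j hj1 hj
    have hC : TA h j.castSucc ∈ MR h 1 (n + 1) := TA_mem h _ hj1 (by
      simp only [Fin.val_castSucc]; omega)
    have h1 := hS (pair_TA h j) hC _ hj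
    rw [FA_self] at h1
    exact (Subgroup.mul_mem_cancel_left _ hj).mp h1
  have hdown : ∀ d : ℕ, ∀ j : Fin n, 1 ≤ (j : ℕ) → (j : ℕ) + 1 + d = n → of (Sum.inr j) ∈ S := by
    intro d
    induction d with
    | zero =>
      intro j hj1 hj
      have hj' : ((Fin.last n : Fin (n + 1)) : ℕ) = j.castSucc + 1 := by
        simp only [Fin.val_last, Fin.val_castSucc]; omega
      change XX h (of (Sum.inr j)) ∈ MR h 1 (n + 1)
      rw [XX_b]
      have h1 := X0_eq h j hj'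
      have h2 : Xb h j = TC h j.castSucc (Fin.last n) hj' * (TB h j.castSucc)⁻¹ := by
        rw [← h1, mul_inv_cancel_right]
      rw [h2]
      exact Subgroup.mul_mem _ (TC_mem h _ _ _ hj1 (Nat.lt_succ_self n))
        (Subgroup.inv_mem _ (TB_mem h _ hj1 (by simp only [Fin.val_castSucc]; omega)))
    | succ d ih =>
      intro j hj0 hj
      have hj1 : (j : ℕ) + 1 < n := by omega
      let j' : Fin n := ⟨j + 1, hj1⟩
      have hij : (j' : ℕ) = j + 1 := rfl
      have h1 := ih j' (by simp only [j']; omega) (by simp only [j']; omega)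
      have hC : TCc h hij ∈ MR h 1 (n + 1) := TC_mem h _ _ _ hj0 (by
        simp only [Fin.val_castSucc]; omega)
      have h2 := hS (pair_TC h hij) hC _ h1
      rw [FC_bj] at h2
      have h3 := (Subgroup.mul_mem_cancel_left _ h1).mp h2
      exact (Subgroup.mul_mem_cancel_left _ (Subgroup.inv_mem _
        (hA _ (by simp only [j']; omega) h1))).mp h3
  have h1 : of (Sum.inr i) ∈ S := hdown (n - 1 - i) i hi (by have := i.2; omega)
  exact ⟨h1, hA i hi h1⟩

/-- The index of the handle of a generator. -/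
def hd (s : Fin n ⊕ Fin n) : Fin n := Sum.elim id id s

theorem XX_MR1' (s : Fin n ⊕ Fin n) (hs : 1 ≤ (hd s : ℕ)) : XX h (of s) ∈ MR h 1 (n + 1) := by
  rcases s with i | i
  · exact (XX_MR1 h i hs).2
  · exact (XX_MR1 h i hs).1

theorem MR_leM (lo hi : ℕ) : MR h lo hi ≤ MMs h := by
  apply MR_le h
  · intro i _ _
    exact Subgroup.subset_closure (Or.inr (Or.inl ⟨i, rfl⟩))
  · intro i _ _
    exact Subgroup.subset_closure (Or.inr (Or.inr (Or.inl ⟨i, rfl⟩)))
  · intro i j hij _ _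
    exact Subgroup.subset_closure (Or.inr (Or.inr (Or.inr ⟨i, j, hij, rfl⟩)))

variable {h}

theorem mem_of_MR1 {K : Subgroup (MulAut G)} (hK : ∀ ψ ∈ MMs h, ∀ x ∈ K, ψ * x * ψ⁻¹ ∈ K)
    (hR : ∀ r ∈ MR h 0 n, H1 h r = 1 → r ∈ K) {f : MulAut G} (hf : f ∈ MR h 1 (n + 1))
    (h1 : H1 h f = 1) : f ∈ K := by
  obtain ⟨β, hβ, hβ2⟩ := exists_rot h
  have hβm : β ∈ MMs h := MR_leM h 0 (n + 1) hβ
  have h2 : β * f * β⁻¹ ∈ K := by
    refine hR _ (hβ2 f hf) ?_
    rw [map_mul, map_mul, h1, mul_one, ← map_mul, mul_inv_cancel, map_one]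
  have h3 := hK β⁻¹ (Subgroup.inv_mem _ hβm) _ h2
  have h4 : β⁻¹ * (β * f * β⁻¹) * β⁻¹⁻¹ = f := by group
  rwa [h4] at h3

theorem comm_high {K : Subgroup (MulAut G)} (hK : ∀ ψ ∈ MMs h, ∀ x ∈ K, ψ * x * ψ⁻¹ ∈ K)
    (hR : ∀ r ∈ MR h 0 n, H1 h r = 1 → r ∈ K) (s t : Fin n ⊕ Fin n) (hs : 1 ≤ (hd s : ℕ))
    (ht : 1 ≤ (hd t : ℕ)) : of s * of t * (of s)⁻¹ * (of t)⁻¹ ∈ SK h K := by
  have h0 : cy h (of s * of t * (of s)⁻¹ * (of t)⁻¹) = 0 := by
    simp only [cy_mul, cy_inv]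
    abel
  obtain ⟨k, hk⟩ := exists_H1_one h _ h0
  refine ⟨k, mem_of_MR1 hK hR ?_ hk⟩
  have h1 := XX_MR1' h s hs
  have h2 := XX_MR1' h t ht
  have h3 : TT h ∈ MR h 1 (n + 1) := by
    refine TA_mem h _ ?_ (Nat.lt_succ_self n)
    have := (hd s).2
    change 1 ≤ n
    omega
  simp only [map_mul, map_inv]
  exact Subgroup.mul_mem _ (Subgroup.mul_mem _ (Subgroup.mul_mem _ (Subgroup.mul_mem _ h1 h2)
    (Subgroup.inv_mem _ h1)) (Subgroup.inv_mem _ h2)) (Subgroup.zpow_mem _ h3 _)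

/-- The swap of two consecutive handles, on the generators. -/
theorem exists_sw (h : IsSurf a b) (i : ℕ) (hi : i + 1 < n) :
    ∃ (f' : MulAut (Fr n)) (f : MulAut G), Pair h f' f ∧ f ∈ MMs h ∧
      (∀ s : Fin n ⊕ Fin n, (hd s : ℕ) = i + 1 →
        f' (of s) = of (Sum.map (fun _ => ⟨i, by omega⟩) (fun _ => ⟨i, by omega⟩) s)) ∧
      ∀ s : Fin n ⊕ Fin n, (hd s : ℕ) ≠ i → (hd s : ℕ) ≠ i + 1 → f' (of s) = of s := by
  obtain ⟨σ, s1, s2, -⟩ := exists_swap' h i (by omega)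
  have s1' : σ ∈ MR h 0 n := MR_mono h (Nat.zero_le _) (by omega) s1
  obtain ⟨f', hp⟩ := pair_of_MR h le_rfl σ s1'
  refine ⟨f', σ, hp, MR_leM h 0 n s1', ?_, ?_⟩
  · rintro (k | k) hk
    · have hk' : k = ⟨i + 1, hi⟩ := Fin.ext hk
      subst hk'
      apply jR_injective h
      rw [← hp.fj, jR_a]
      have h1 := s2.1
      rw [ex_lt a (by omega : i + 1 < n + 1), ex_lt a (by omega : i < n + 1)] at h1
      change σ (a ⟨i + 1, _⟩) = jR a b (of (Sum.inl ⟨i, _⟩))
      rw [jR_a]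
      exact h1
    · have hk' : k = ⟨i + 1, hi⟩ := Fin.ext hk
      subst hk'
      apply jR_injective h
      rw [← hp.fj, jR_b]
      have h1 := s2.2
      rw [ex_lt b (by omega : i + 1 < n + 1), ex_lt b (by omega : i < n + 1)] at h1
      change σ (b ⟨i + 1, _⟩) = jR a b (of (Sum.inr ⟨i, _⟩))
      rw [jR_b]
      exact h1
  · rintro (k | k) h1 h2
    · have h1' : (k : ℕ) ≠ i := h1
      have h2' : (k : ℕ) ≠ i + 1 := h2
      have h3 := MR_fix h s1 k (by omega)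
      apply jR_injective h
      rw [← hp.fj, jR_a]
      have h4 := h3.1
      rw [ex_lt a (by have := k.2; omega : (k : ℕ) < n + 1)] at h4
      exact h4
    · have h1' : (k : ℕ) ≠ i := h1
      have h2' : (k : ℕ) ≠ i + 1 := h2
      have h3 := MR_fix h s1 k (by omega)
      apply jR_injective h
      rw [← hp.fj, jR_b]
      have h4 := h3.2
      rw [ex_lt b (by have := k.2; omega : (k : ℕ) < n + 1)] at h4
      exact h4

theorem hd_mv (s : Fin n ⊕ Fin n) (k : Fin n) : hd (Sum.map (fun _ => k) (fun _ => k) s) = k := by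
  rcases s with i | i <;> rfl

theorem mv_mv (s : Fin n ⊕ Fin n) (k l : Fin n) (hs : hd s = l) :
    Sum.map (fun _ => l) (fun _ => l) (Sum.map (fun _ => k) (fun _ => k) s) = s := by
  rcases s with i | i
  · change Sum.inl l = Sum.inl i
    rw [← hs]; rfl
  · change Sum.inr l = Sum.inr i
    rw [← hs]; rfl

theorem comm_all (hn : 3 ≤ n) {K : Subgroup (MulAut G)}
    (hK : ∀ ψ ∈ MMs h, ∀ x ∈ K, ψ * x * ψ⁻¹ ∈ K)
    (hR : ∀ r ∈ MR h 0 n, H1 h r = 1 → r ∈ K) (s t : Fin n ⊕ Fin n) :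
    of s * of t * (of s)⁻¹ * (of t)⁻¹ ∈ SK h K := by
  obtain ⟨f', f, hp, hf, h1, h2⟩ := exists_sw h 0 (by omega)
  obtain ⟨g', g, hq, hg, h3, h4⟩ := exists_sw h 1 (by omega)
  have e0 : (⟨0, by omega⟩ : Fin n) = ⟨0, by omega⟩ := rfl
  -- zero and at least two
  have k2 : ∀ s t : Fin n ⊕ Fin n, (hd s : ℕ) = 0 → 2 ≤ (hd t : ℕ) →
      of s * of t * (of s)⁻¹ * (of t)⁻¹ ∈ SK h K := by
    intro s t hs ht
    have hs' : hd s = ⟨0, by omega⟩ := Fin.ext hs
    set s' := Sum.map (fun _ => (⟨1, by omega⟩ : Fin n)) (fun _ => (⟨1, by omega⟩ : Fin n)) s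
      with hs1
    have c1 : (hd s' : ℕ) = 1 := by rw [hs1, hd_mv]
    have c2 := comm_high hK hR s' t (by omega) (by omega)
    have c3 := SK_pair h hK hp hf c2
    simp only [map_mul, map_inv] at c3
    rw [h1 s' c1, h2 t (by omega) (by omega), hs1, mv_mv s _ _ hs'] at c3
    exact c3
  have k0 : ∀ s t : Fin n ⊕ Fin n, (hd s : ℕ) = 0 → (hd t : ℕ) = 0 →
      of s * of t * (of s)⁻¹ * (of t)⁻¹ ∈ SK h K := by
    intro s t hs ht
    have hs' : hd s = ⟨0, by omega⟩ := Fin.ext hs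
    have ht' : hd t = ⟨0, by omega⟩ := Fin.ext ht
    set s' := Sum.map (fun _ => (⟨1, by omega⟩ : Fin n)) (fun _ => (⟨1, by omega⟩ : Fin n)) s
      with hs1
    set t' := Sum.map (fun _ => (⟨1, by omega⟩ : Fin n)) (fun _ => (⟨1, by omega⟩ : Fin n)) t
      with ht1
    have c1 : (hd s' : ℕ) = 1 := by rw [hs1, hd_mv]
    have c1' : (hd t' : ℕ) = 1 := by rw [ht1, hd_mv]
    have c2 := comm_high hK hR s' t' (by omega) (by omega)
    have c3 := SK_pair h hK hp hf c2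
    simp only [map_mul, map_inv] at c3
    rw [h1 s' c1, h1 t' c1', hs1, ht1, mv_mv s _ _ hs', mv_mv t _ _ ht'] at c3
    exact c3
  have k1 : ∀ s t : Fin n ⊕ Fin n, (hd s : ℕ) = 0 → (hd t : ℕ) = 1 →
      of s * of t * (of s)⁻¹ * (of t)⁻¹ ∈ SK h K := by
    intro s t hs ht
    have ht' : hd t = ⟨1, by omega⟩ := Fin.ext ht
    set t' := Sum.map (fun _ => (⟨2, by omega⟩ : Fin n)) (fun _ => (⟨2, by omega⟩ : Fin n)) t
      with ht1
    have c1' : (hd t' : ℕ) = 2 := by rw [ht1, hd_mv]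
    have c2 := k2 s t' hs (by omega)
    have c3 := SK_pair h hK hq hg c2
    simp only [map_mul, map_inv] at c3
    rw [h4 s (by omega) (by omega), h3 t' c1', ht1, mv_mv t _ _ ht'] at c3
    exact c3
  have kz : ∀ s t : Fin n ⊕ Fin n, (hd s : ℕ) = 0 →
      of s * of t * (of s)⁻¹ * (of t)⁻¹ ∈ SK h K := by
    intro s t hs
    rcases Nat.lt_trichotomy (hd t : ℕ) 1 with h5 | h5 | h5
    · exact k0 s t hs (by omega)
    · exact k1 s t hs h5
    · exact k2 s t hs h5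
  by_cases hs : (hd s : ℕ) = 0
  · exact kz s t hs
  · by_cases ht : (hd t : ℕ) = 0
    · have h5 := Subgroup.inv_mem _ (kz t s ht)
      have h6 : (of t * of s * (of t)⁻¹ * (of s)⁻¹)⁻¹ =
          of s * of t * (of s)⁻¹ * (of t)⁻¹ := by group
      rwa [h6] at h5
    · exact comm_high hK hR s t (by omega) (by omega)

theorem mem_comm_of_cy (y : Fr n) (hy : cy h y = 0) : y ∈ commutator (Fr n) := by
  let ψ : Fr n →* Abelianization (Fr n) :=
    { toFun := fun y => ∏ i : Fin n,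
        (Abelianization.of (of (Sum.inl i)) ^ (cy h y i.castSucc).1 *
          Abelianization.of (of (Sum.inr i)) ^ (cy h y i.castSucc).2)
      map_one' := by simp [cy_one]
      map_mul' := fun x y => by
        rw [← Finset.prod_mul_distrib]
        refine Finset.prod_congr rfl fun i _ => ?_
        rw [cy_mul, Pi.add_apply, Prod.fst_add, Prod.snd_add, zpow_add, zpow_add]
        exact mul_mul_mul_comm _ _ _ _ }
  have h1 : ψ = Abelianization.of := by
    ext s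
    rcases s with k | k
    · change ∏ i : Fin n, _ = _
      rw [Finset.prod_eq_single k]
      · rw [cy_a, e_self, zpow_one, zpow_zero, mul_one]
      · intro i _ hi
        have hne : i.castSucc ≠ k.castSucc := fun hh => hi (Fin.castSucc_injective n hh)
        rw [cy_a, e_ne hne]
        simp
      · simp
    · change ∏ i : Fin n, _ = _
      rw [Finset.prod_eq_single k]
      · rw [cy_b, f_self, zpow_one, zpow_zero, one_mul]
      · intro i _ hi
        have hne : i.castSucc ≠ k.castSucc := fun hh => hi (Fin.castSucc_injective n hh)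
        rw [cy_b, f_ne hne]
        simp
      · simp
  have h2 : Abelianization.of y = 1 := by
    rw [← h1]
    change ∏ i : Fin n, _ = _
    rw [hy]
    simp
  exact (QuotientGroup.eq_one_iff y).mp h2

theorem comm_le {S : Subgroup (Fr n)} (hS : S.Normal)
    (hc : ∀ s t : Fin n ⊕ Fin n, of s * of t * (of s)⁻¹ * (of t)⁻¹ ∈ S) :
    commutator (Fr n) ≤ S := by
  rw [commutator_def, Subgroup.commutator_le]
  have key : ∀ s : Fin n ⊕ Fin n, ∀ y : Fr n, of s * y * (of s)⁻¹ * y⁻¹ ∈ S := by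
    intro s y
    have h1 : ∀ y : Fr n, (of s * y * (of s)⁻¹ * y⁻¹ ∈ S ↔
        (QuotientGroup.mk' S (of s) * QuotientGroup.mk' S y =
          QuotientGroup.mk' S y * QuotientGroup.mk' S (of s))) := by
      intro y
      rw [← QuotientGroup.eq_one_iff, ← QuotientGroup.mk'_apply, map_mul, map_mul, map_mul,
        map_inv, map_inv, mul_inv_eq_one, mul_inv_eq_iff_eq_mul]
    rw [h1]
    induction y using FreeGroup.induction_on with
    | C1 => rw [map_one, mul_one, one_mul]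
    | of t => exact (h1 _).mp (hc s t)
    | inv_of t ht =>
      rw [map_inv]
      exact (Commute.inv_right (show Commute _ _ from ht)).eq
    | mul x y hx hy =>
      rw [map_mul]
      exact (Commute.mul_right (show Commute _ _ from hx) (show Commute _ _ from hy)).eq
  intro x hx0 y hy0
  clear hx0 hy0
  rw [commutatorElement_def]
  have h1 : ∀ x : Fr n, (x * y * x⁻¹ * y⁻¹ ∈ S ↔
      (QuotientGroup.mk' S x * QuotientGroup.mk' S y =
        QuotientGroup.mk' S y * QuotientGroup.mk' S x)) := by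
    intro x
    rw [← QuotientGroup.eq_one_iff, ← QuotientGroup.mk'_apply, map_mul, map_mul, map_mul,
      map_inv, map_inv, mul_inv_eq_one, mul_inv_eq_iff_eq_mul]
  rw [h1]
  induction x using FreeGroup.induction_on with
  | C1 => rw [map_one, mul_one, one_mul]
  | of t => exact (h1 _).mp (key t y)
  | inv_of t ht =>
    rw [map_inv]
    exact (Commute.inv_left (show Commute _ _ from ht)).eq
  | mul x y hx hy =>
    rw [map_mul]
    exact (Commute.mul_left (show Commute _ _ from hx) (show Commute _ _ from hy)).eq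

theorem om_lastf_cy (y : Fr n) : om (cy h y) (f (Fin.last n)) = 0 := by
  induction y using fr_induction with
  | h1 => rw [cy_one, om_zero_left]
  | ha k => rw [cy_a, om_e_f_ne (last_ne_cs k).symm]
  | hb k => rw [cy_b, om_f_f]
  | hm x y hx hy => rw [cy_mul, om_add_left, hx, hy, add_zero]
  | hi x hx => rw [cy_inv, om_neg_left, hx, neg_zero]

theorem TTz_eq_one {k : ℤ} (hk : H1 h (TT h ^ k) = 1) : k = 0 := by
  have h1 := DFunLike.congr_fun hk (f (Fin.last n))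
  rw [H1_TTz, Ef_apply, om_e_f, om_zero_left] at h1
  change f (Fin.last n) + _ + _ = f (Fin.last n) at h1
  have h2 := congrArg (fun v => om v (f (Fin.last n))) h1
  simp only [om_add_left, om_smul_left, om_e_f, om_zero_left, om_self, mul_zero, mul_one,
    zero_add, add_zero] at h2
  exact h2

/-- The Torelli elements of the group generated by all twists but one. -/
theorem g_one (h : IsSurf a b) (hn : 3 ≤ n) (K : Subgroup (MulAut G))
    (hK : ∀ ψ ∈ MMs h, ∀ x ∈ K, ψ * x * ψ⁻¹ ∈ K)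
    (hR : ∀ r ∈ MR h 0 n, H1 h r = 1 → r ∈ K) (φ : MulAut G) (hφ : φ ∈ Mc h)
    (h1 : H1 h φ = 1) : φ ∈ K := by
  obtain ⟨y, k, f', f₀, hp, hm, rfl⟩ := Mc_form h φ hφ
  obtain ⟨l, hl⟩ := H1_XX h y
  have hz : ∀ v, H1 h (XX h y * TT h ^ k * f₀) v = Ef (cy h y) (l + k) (H1 h f₀ v) := by
    intro v
    rw [map_mul, map_mul]
    change H1 h (XX h y) (H1 h (TT h ^ k) (H1 h f₀ v)) = _
    rw [H1_TTz, hl, Ef_comp (om_last_cy h y) (om_zero_right _), om_zero_right, add_zero, add_zero]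
  have hfl : H1 h f₀ (f (Fin.last n)) = f (Fin.last n) := by
    rw [H1_f, hp.fb, cls_b]
  have h2 := hz (f (Fin.last n))
  rw [h1, hfl, Ef_apply, om_e_f, om_lastf_cy] at h2
  change f (Fin.last n) = _ at h2
  have h3 : l + k = 0 := by
    have h4 := congrArg (fun v => om v (f (Fin.last n))) h2
    simp only [om_add_left, om_smul_left, om_e_f, om_self, om_lastf_cy] at h4
    omega
  have hcy : cy h y = 0 := by
    rw [h3] at h2
    have h5 : f (Fin.last n) + (0 : V (n + 1)) = f (Fin.last n) + cy h y := by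
      rw [add_zero]
      conv_lhs => rw [h2]
      module
    exact (add_left_cancel h5).symm
  have hf1 : H1 h f₀ = 1 := by
    refine LinearEquiv.ext fun v => ?_
    have h6 := hz v
    rw [h1, hcy, h3, Ef_zero] at h6
    exact h6.symm
  set K' : Subgroup (MulAut G) := K ⊓ (H1 h).ker with hK'
  have c1 : ∀ ψ ∈ MMs h, ∀ x ∈ K', ψ * x * ψ⁻¹ ∈ K' := by
    rintro ψ hψ x ⟨hx1, hx2⟩
    refine ⟨hK ψ hψ x hx1, ?_⟩
    have hx3 : H1 h x = 1 := hx2
    change H1 h (ψ * x * ψ⁻¹) = 1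
    rw [map_mul, map_mul, hx3, mul_one, ← map_mul, mul_inv_cancel, map_one]
  have c2 : ∀ r ∈ MR h 0 n, H1 h r = 1 → r ∈ K' := fun r hr hr1 => ⟨hR r hr hr1, hr1⟩
  have c3 : y ∈ SK h K' := comm_le (SK_normal h c1) (comm_all hn c1 c2) (mem_comm_of_cy y hcy)
  obtain ⟨k', hk1, hk2⟩ := c3
  have hk3 : H1 h (XX h y * TT h ^ k') = 1 := hk2
  have hk4 : H1 h (XX h y * TT h ^ k) = 1 := by
    have h7 : XX h y * TT h ^ k = XX h y * TT h ^ k * f₀ * f₀⁻¹ := by group
    rw [h7, map_mul, h1, one_mul, map_inv, hf1, inv_one]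
  have hk5 : k' = k := by
    have h8 : TT h ^ (k' - k) = (XX h y * TT h ^ k)⁻¹ * (XX h y * TT h ^ k') := by
      rw [zpow_sub]
      have h9 := ((Commute.refl (TT h)).zpow_zpow k' k).eq
      calc TT h ^ k' * (TT h ^ k)⁻¹ = (TT h ^ k)⁻¹ * (TT h ^ k * TT h ^ k') * (TT h ^ k)⁻¹ := by
            group
        _ = _ := by rw [← h9]; group
    have h9 : H1 h (TT h ^ (k' - k)) = 1 := by
      rw [h8, map_mul, map_inv, hk3, hk4, inv_one, one_mul]
    have := TTz_eq_one h9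
    omega
  rw [hk5] at hk1
  exact K.mul_mem hk1 (hR f₀ hm hf1)

end

end Pool.MP_59b15d_al.H73G
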